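import Pool.Agent.Q30.HP.Step3

set_option autoImplicit false

/-!
MP_a54f13_nt. The value distribution and all moments of Hecke-Maass cusp forms on an arbitrary compact set are
controlled by those on one band `a ≤ Im z ≤ 4 a`, arbitrarily high in the cusp, with constants which do not depend on
the form.
-/

open MeasureTheory
open scoped MatrixGroups ENNReal

namespace Pool.Agent.Results.MP_a54f13_nt.OneBand

/-- `f` is a (real or complex valued) Hecke-Maass cusp form for `SL(2, ℤ)` with the eigenvalue `1/4 + t²`, `t ≥ 1`, and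
with `(1 / vol X) ∫ |f|² = 1`, `vol X = π / 3`. -/
structure HeckeMaass (f : ℂ → ℂ) (t : ℝ) : Prop where
  one_le : 1 ≤ t
  smooth : ContDiffOn ℝ 2 f {z : ℂ | 0 < z.im}
  invariant : ∀ z : ℂ, 0 < z.im → f (z + 1) = f z ∧ f (-z⁻¹) = f z
  eigen : ∀ z : ℂ, 0 < z.im →
    -((z.im : ℂ)) ^ 2 *
      (deriv (deriv (fun u : ℝ => f (z + (u : ℂ)))) 0 +
        deriv (deriv (fun u : ℝ => f (z + (u : ℂ) * Complex.I))) 0)
      = (1 / 4 + (t : ℂ) ^ 2) * f z
  cuspidal : ∀ y : ℝ, 0 < y →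
    intervalIntegral (fun x : ℝ => f ((x : ℂ) + (y : ℂ) * Complex.I)) 0 1 volume = 0
  normalised : 1 / (Real.pi / 3) * (∫ z in {z : ℂ | 0 < z.im ∧ |z.re| ≤ 1 / 2 ∧ 1 ≤ ‖z‖}, ‖f z‖ ^ 2 / z.im ^ 2) = 1
  hecke : ∀ n : ℕ, 1 ≤ n → ∃ c : ℂ, ∀ z : ℂ, 0 < z.im →
    ∑ d ∈ n.divisors, ∑ b ∈ Finset.range d,
      f ((((n / d : ℕ) : ℂ) * z + (b : ℂ)) / (d : ℂ)) = c * f z

/-- the band `|Re z| ≤ 1/2`, `a ≤ Im z ≤ 4 a`, of hyperbolic area `3 / (4 a)` -/
def band (a : ℝ) : Set ℂ := {z : ℂ | |z.re| ≤ 1 / 2 ∧ a ≤ z.im ∧ z.im ≤ 4 * a}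

/-- the hyperbolic area of a subset of the upper half plane -/
noncomputable def area (E : Set ℂ) : ℝ≥0∞ := ∫⁻ z in E, ENNReal.ofReal (1 / z.im ^ 2)

/-- the moment `∫_E |f|^q dμ` -/
noncomputable def moment (f : ℂ → ℂ) (q : ℝ) (E : Set ℂ) : ℝ := ∫ z in E, ‖f z‖ ^ q / z.im ^ 2

open Pool.Agent.Q30.HP UpperHalfPlane

/-- the normalising factor -/
noncomputable def kap : ℝ := Real.sqrt (3 / Real.pi)

lemma kap_pos : 0 < kap := Real.sqrt_pos.2 (by positivity)

lemma kap_sq : kap ^ 2 = 3 / Real.pi := Real.sq_sqrt (by positivity)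

lemma HeckeMaass.form {f : ℂ → ℂ} {t : ℝ} (h : HeckeMaass f t) : Form (fun z => (kap : ℂ) * f z) t where
  one_le := h.one_le
  smooth := contDiffOn_const.mul h.smooth
  inv := fun z hz => by
    obtain ⟨h1, h2⟩ := h.invariant z hz
    constructor
    · show (kap : ℂ) * f (z + 1) = kap * f z
      rw [h1]
    · show (kap : ℂ) * f (-z⁻¹) = kap * f z
      rw [h2]
  eigen := fun z hz => by
    have h1 := h.eigen z hz
    have e : LL (fun z => (kap : ℂ) * f z) z = (kap : ℂ) * (deriv (deriv (fun u : ℝ => f (z + (u : ℂ)))) 0 +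
        deriv (deriv (fun u : ℝ => f (z + (u : ℂ) * Complex.I))) 0) := by
      have hfun : ∀ g : ℝ → ℂ, deriv (fun u : ℝ => (kap : ℂ) * g u) = fun u => (kap : ℂ) * deriv g u := fun g =>
        funext fun u => deriv_const_mul_field _
      unfold LL
      rw [hfun (fun u : ℝ => f (z + (u : ℂ))), hfun (fun u : ℝ => f (z + (u : ℂ) * Complex.I)), hfun, hfun]
      ring
    rw [e]
    linear_combination (kap : ℂ) * h1
  mass := by
    have h1 := h.normalised
    have e : ∀ z : ℂ, ‖(kap : ℂ) * f z‖ ^ 2 / z.im ^ 2 = kap ^ 2 * (‖f z‖ ^ 2 / z.im ^ 2) := by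
      intro z
      rw [norm_mul, Complex.norm_real, Real.norm_eq_abs, abs_of_pos kap_pos]
      ring
    simp_rw [e]
    rw [integral_const_mul, kap_sq]
    have h2 : 1 / (Real.pi / 3) = 3 / Real.pi := by field_simp
    rw [h2] at h1
    exact h1
  hecke := fun n hn => by
    obtain ⟨c, hc⟩ := h.hecke n hn
    refine ⟨c, fun z hz => ?_⟩
    have h1 := hc z hz
    simp_rw [← Finset.mul_sum]
    rw [h1]
    ring

lemma norm_form {f : ℂ → ℂ} (z : ℂ) : ‖(kap : ℂ) * f z‖ = kap * ‖f z‖ := by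
  rw [norm_mul, Complex.norm_real, Real.norm_eq_abs, abs_of_pos kap_pos]

lemma image_pre {K : Set ℂ} (hK : K ⊆ {z : ℂ | 0 < z.im}) :
    UpperHalfPlane.coe '' (UpperHalfPlane.coe ⁻¹' K) = K := by
  rw [Set.image_preimage_eq_iff]
  intro z hz
  exact ⟨⟨z, hK hz⟩, rfl⟩

lemma area_eq {E : Set ℂ} (hE : E ⊆ {z : ℂ | 0 < z.im}) (hm : MeasurableSet (UpperHalfPlane.coe ⁻¹' E)) :
    area E = volume (UpperHalfPlane.coe ⁻¹' E) := by
  have h := lint_gen (f := fun _ => 1) measurable_const hm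
  rw [image_pre hE] at h
  unfold area
  simpa using h.symm

lemma band_sub {a : ℝ} (ha : 0 < a) : band a ⊆ {z : ℂ | 0 < z.im} := fun _ hz => lt_of_lt_of_le ha hz.2.1

lemma band_compact (a : ℝ) : IsCompact (band a) := by
  have : band a = (Set.Icc (-(1 / 2)) (1 / 2) ×ℂ Set.Icc a (4 * a)) := by
    ext z
    simp [band, Complex.mem_reProdIm, abs_le]
  rw [this]
  exact isCompact_Icc.reProdIm isCompact_Icc

lemma step {a : ℝ} (ha : 0 < a) {K : Set ℂ} (hK : IsCompact K) (hKs : K ⊆ {z : ℂ | 0 < z.im}) :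
    Step (UpperHalfPlane.coe ⁻¹' K) (UpperHalfPlane.coe ⁻¹' (band a)) := by
  obtain ⟨M, hM, hMK⟩ : ∃ M : ℝ, 1 ≤ M ∧ ∀ z ∈ K, |z.re| ≤ M ∧ 1 / M ≤ z.im ∧ z.im ≤ M := by
    rcases K.eq_empty_or_nonempty with rfl | hne
    · exact ⟨1, le_refl _, by simp⟩
    · obtain ⟨R, hR⟩ := hK.isBounded.exists_norm_le
      obtain ⟨w, hw, hmin⟩ := hK.exists_isMinOn hne Complex.continuous_im.continuousOn
      have hw0 : 0 < w.im := hKs hw
      have hRm : R ≤ max 1 (max R (1 / w.im)) := (le_max_left _ _).trans (le_max_right _ _)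
      refine ⟨max 1 (max R (1 / w.im)), le_max_left _ _, fun z hz => ⟨?_, ?_, ?_⟩⟩
      · exact (Complex.abs_re_le_norm z).trans ((hR z hz).trans hRm)
      · have h1 : w.im ≤ z.im := hmin hz
        have h2 : 1 / w.im ≤ max 1 (max R (1 / w.im)) := (le_max_right _ _).trans (le_max_right _ _)
        refine le_trans ?_ h1
        rw [div_le_iff₀ (lt_of_lt_of_le one_pos (le_max_left _ _))]
        rw [div_le_iff₀ hw0] at h2
        linarith
      · exact (Complex.im_le_norm z).trans ((hR z hz).trans hRm)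
  refine (step_band ha hM).mono ?_ ?_
  · intro τ hτ
    exact hMK _ hτ
  · intro τ hτ
    exact hτ

/-- the hand-in -/
theorem result (a : ℝ) (ha : 0 < a) (K : Set ℂ) (hK : IsCompact K) (hKs : K ⊆ {z : ℂ | 0 < z.im}) :
    -- pointwise domination by finitely many isometries
    (∃ G : Set (GL (Fin 2) ℝ), G.Finite ∧ ∃ C : ℝ, 0 < C ∧ ∀ (f : ℂ → ℂ) (t : ℝ), HeckeMaass f t →
      ∀ τ : ℍ, (τ : ℂ) ∈ K → ∀ B : ℝ, 0 ≤ B →
        (∀ g ∈ G, ((g • τ : ℍ) : ℂ) ∈ band a → ‖f ((g • τ : ℍ) : ℂ)‖ ≤ B) → ‖f τ‖ ≤ C * B) ∧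
    -- the value distribution
    (∃ C : ℝ, 0 < C ∧ ∀ (f : ℂ → ℂ) (t : ℝ), HeckeMaass f t → ∀ s : ℝ, 0 ≤ s →
      area (K ∩ {z | s < ‖f z‖}) ≤ ENNReal.ofReal C * area (band a ∩ {z | s / C < ‖f z‖})) ∧
    -- the moments
    (∃ C : ℝ, 0 < C ∧ ∀ (f : ℂ → ℂ) (t : ℝ), HeckeMaass f t → ∀ q : ℝ, 0 < q →
      moment f q K ≤ C ^ (q + 1) * moment f q (band a)) := by
  have hs := step ha hK hKs
  have hKm : MeasurableSet (UpperHalfPlane.coe ⁻¹' K) := measurable_coe hK.isClosed.measurableSet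
  have hEm : MeasurableSet (UpperHalfPlane.coe ⁻¹' (band a)) := measurable_coe (band_compact a).isClosed.measurableSet
  refine ⟨?_, ?_, ?_⟩
  · obtain ⟨G, hG, C, hC, H⟩ := hs
    refine ⟨G, hG, C, hC, fun f t hf τ hτ B hB hb => ?_⟩
    have h1 := H _ t hf.form τ hτ (kap * B) (mul_nonneg kap_pos.le hB) (fun g hg hgE => by
      rw [norm_form]
      exact mul_le_mul_of_nonneg_left (hb g hg hgE) kap_pos.le)
    rw [norm_form] at h1
    have h2 : kap * ‖f τ‖ ≤ kap * (C * B) := by linarith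
    exact le_of_mul_le_mul_left h2 kap_pos
  · obtain ⟨C, hC, H⟩ := hs.dist hEm
    refine ⟨C, hC, fun f t hf s hs0 => ?_⟩
    have hm : Measurable fun τ : ℍ => ‖f τ‖ :=
      (hf.smooth.continuousOn.comp_continuous (by fun_prop) fun τ : ℍ => τ.im_pos).measurable.norm
    have h1 := H _ t hf.form (kap * s) (mul_nonneg kap_pos.le hs0)
    have e1 : {τ : ℍ | kap * s < ‖(kap : ℂ) * f τ‖} = {τ : ℍ | s < ‖f τ‖} := by
      ext τ
      simp only [Set.mem_ofPred_eq, norm_form]
      exact mul_lt_mul_iff_right₀ kap_pos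
    have e2 : {τ : ℍ | kap * s / C < ‖(kap : ℂ) * f τ‖} = {τ : ℍ | s / C < ‖f τ‖} := by
      ext τ
      simp only [Set.mem_ofPred_eq, norm_form, mul_div_assoc]
      exact mul_lt_mul_iff_right₀ kap_pos
    rw [e1, e2] at h1
    rw [area_eq (Set.inter_subset_left.trans hKs), area_eq (Set.inter_subset_left.trans (band_sub ha))]
    · exact h1
    · exact hEm.inter (measurableSet_lt measurable_const hm)
    · exact hKm.inter (measurableSet_lt measurable_const hm)
  · obtain ⟨C, hC, H⟩ := hs.moment hKm hEm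
    refine ⟨C, hC, fun f t hf q hq => ?_⟩
    have h1 := H _ t hf.form q hq
    have hm : Measurable fun τ : ℍ => ‖f τ‖ :=
      (hf.smooth.continuousOn.comp_continuous (by fun_prop) fun τ : ℍ => τ.im_pos).measurable.norm
    have hcont : ContinuousOn (fun z : ℂ => ‖f z‖ ^ q / z.im ^ 2) {z : ℂ | 0 < z.im} := by
      apply ContinuousOn.div
      · exact (hf.smooth.continuousOn.norm).rpow_const fun _ _ => Or.inr hq.le
      · exact (Complex.continuous_im.pow 2).continuousOn
      · intro z hz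
        have : (0 : ℝ) < z.im := hz
        positivity
    have conv : ∀ E : Set ℂ, IsCompact E → E ⊆ {z : ℂ | 0 < z.im} →
        ∫⁻ τ in UpperHalfPlane.coe ⁻¹' E, ENNReal.ofReal (‖(kap : ℂ) * f τ‖ ^ q) =
          ENNReal.ofReal (kap ^ q * moment f q E) := by
      intro E hE hEs
      have hEm' : MeasurableSet (UpperHalfPlane.coe ⁻¹' E) := measurable_coe hE.isClosed.measurableSet
      have hint : IntegrableOn (fun z : ℂ => ‖f z‖ ^ q / z.im ^ 2) E := (hcont.mono hEs).integrableOn_compact hE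
      have h2 := ofReal_integral_eq_lintegral_ofReal hint (Filter.Eventually.of_forall fun z => by positivity)
      have h3 := lint_gen (f := fun z : ℂ => ENNReal.ofReal (‖(kap : ℂ) * f z‖ ^ q)) (by
        simp only [norm_form]
        exact ((hm.const_mul kap).pow_const q).ennreal_ofReal) hEm'
      rw [image_pre hEs] at h3
      rw [h3]
      unfold moment
      rw [ENNReal.ofReal_mul (by have := kap_pos; positivity), h2, ← lintegral_const_mul' _ _ ENNReal.ofReal_ne_top]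
      refine lintegral_congr fun z => ?_
      rw [norm_form, Real.mul_rpow kap_pos.le (norm_nonneg _), ENNReal.ofReal_mul (by have := kap_pos; positivity),
        mul_assoc]
      congr 1
      rw [← ENNReal.ofReal_mul (by positivity)]
      congr 1
      ring
    rw [conv K hK hKs, conv (band a) (band_compact a) (band_sub ha), ← ENNReal.ofReal_mul (by positivity)] at h1
    have hmn : ∀ E : Set ℂ, 0 ≤ moment f q E := fun E => by
      unfold moment
      apply integral_nonneg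
      intro z
      positivity
    have h4 := (ENNReal.ofReal_le_ofReal_iff (by
      have := kap_pos
      have := hmn (band a)
      positivity)).1 h1
    have h5 : kap ^ q * moment f q K ≤ kap ^ q * (C ^ (q + 1) * moment f q (band a)) := by
      rw [Real.rpow_add hC, Real.rpow_one]
      linarith
    exact le_of_mul_le_mul_left h5 (by have := kap_pos; positivity)

end Pool.Agent.Results.MP_a54f13_nt.OneBand
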