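import Pool.Agent.Q175.RW.LH
import Pool.Agent.Results.MP_a54f13_nt.LimitLaws

/-!
# Limit laws of Maass forms with bounded fourth moments (MP_a54f13_nt)

The plane is `ℂ`, `HH` is the upper half plane, `mu U` the measure `dx dy / y²` on `U`, `vol U` its
total mass, `FD` the interior of the standard fundamental domain of the modular group; these
definitions and `IsWeakLimit` (weak limits, along subsequences, of the laws of `f n` for the
normalised area) are those of the file `LimitLaws`. `dx f z`, `dy f z` are the partial derivatives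
`fderiv ℝ f z 1`, `fderiv ℝ f z I`; `TF U φ` says that `φ : ℂ → ℝ` is smooth with compact support
contained in `U`.

`U ⊆ HH` is an open set of finite area, for instance `FD`. The hypothesis `hqe` is quantum unique
ergodicity in its microlocal form on `U`, a theorem for Hecke-Maass cusp forms. The remaining
hypothesis is the bound `limsup ∫_U f⁴ dμ ≤ K vol(U)` for the total fourth moment; the conjectured
value is `K = 3`. The conclusions are that the first three moments are Gaussian over the whole of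
`U` (no escape at the cusp), that an atom at zero of a limit law has mass at most `(K-3)/(K-2)`, and
that the limit laws have a density near zero that is bounded below in terms of `K` alone.
-/

set_option autoImplicit false
open MeasureTheory Filter Topology Complex ProbabilityTheory
open scoped ContDiff ENNReal

namespace Pool.Agent.Results.MP_a54f13_nt.FourthMomentLimitLaws

open Pool.Agent.W745.RW (TF dx dy lap)
open Pool.Agent.Results.MP_a54f13_nt.LimitLaws (HH FD mu vol IsWeakLimit FD_open FD_fin)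

/-- the eigenvalue `1/4 + t²` -/
noncomputable def ev (t : ℝ) : ℝ := 1 / 4 + t ^ 2

/-- the operator `f ↦ lam^{-1/2} y (∂x f - i ∂y f)` -/
noncomputable def RO (lam : ℝ) (f : ℂ → ℂ) (z : ℂ) : ℂ :=
  ((z.im / √lam : ℝ) : ℂ) * (dx f z - I * dy f z)

/-- **Result.** `FD` is a nonempty open subset of the upper half plane of finite area. There is an
absolute constant `c > 0` such that, for every nonempty open subset `U` of the upper half plane of
finite area, real solutions `f n` of `-y²(∂x² + ∂y²) f = (1/4 + t_n²) f` on `U`, `t_n → ∞`, with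
microlocal quantum unique ergodicity on `U` and `limsup ∫_U f⁴ dμ ≤ K vol(U)`:

1. for all bounded smooth functions `ψ` on `U`, `∫_U ψ f² dμ → ∫_U ψ dμ` and `∫_U ψ f³ dμ → 0`;
2. every weak limit `ν` of the value distributions satisfies
   `∫ x dν = 0`, `∫ x² dν = 1`, `∫ x³ dν = 0`, `∫ x⁴ dν ≤ K` and `(K - 2) ν{0} ≤ K - 3`, and
   `c |A| ≤ K^{9/2} ν(A)` for all Borel sets `A ⊆ (-1/(4√K), 1/(4√K))`;
3. outside zero `ν` is equivalent to Lebesgue measure on an open interval `J` containing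
   `(-1/(4√K), 1/(4√K))`; if `K = 3`, then `ν` itself is equivalent to Lebesgue measure on `J`. -/
theorem result : (IsOpen FD ∧ FD.Nonempty ∧ FD ⊆ HH ∧ mu FD Set.univ ≠ ⊤) ∧
    ∃ c : ℝ, 0 < c ∧ ∀ (U : Set ℂ) (t : ℕ → ℝ) (f : ℕ → ℂ → ℝ) (K : ℝ), IsOpen U → U.Nonempty →
    U ⊆ HH → mu U Set.univ ≠ ⊤ → Tendsto t atTop atTop → (∀ n, ContDiffOn ℝ ∞ (f n) U) →
    (∀ n, ∀ z ∈ U, -(z.im ^ 2 * (dx (dx (f n)) z + dy (dy (f n)) z)) = ev (t n) * f n z) →
    (∀ φ, TF U φ → ∀ k : ℕ, Tendsto (fun n => ∫ z, ((φ z / z.im ^ 2 : ℝ) : ℂ) *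
      ((f n z : ℂ) * (RO (ev (t n)))^[k] (fun w => (f n w : ℂ)) z)) atTop
      (𝓝 (if k = 0 then ((∫ z, φ z / z.im ^ 2 : ℝ) : ℂ) else 0))) →
    (∀ n, Integrable (fun z => f n z ^ 4) (mu U)) →
    (∀ ε : ℝ, 0 < ε → ∀ᶠ n in atTop, ∫ z, f n z ^ 4 ∂(mu U) ≤ K * vol U + ε) →
    (∀ ψ : ℂ → ℝ, ContDiffOn ℝ ∞ ψ U → (∃ M : ℝ, ∀ z ∈ U, |ψ z| ≤ M) →
      Tendsto (fun n => ∫ z, ψ z * f n z ^ 2 ∂(mu U)) atTop (𝓝 (∫ z, ψ z ∂(mu U))) ∧
      Tendsto (fun n => ∫ z, ψ z * f n z ^ 3 ∂(mu U)) atTop (𝓝 0)) ∧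
    ∀ ν : Measure ℝ, IsProbabilityMeasure ν → IsWeakLimit U f ν →
      (∫ x, x ∂ν = 0 ∧ ∫ x, x ^ 2 ∂ν = 1 ∧ ∫ x, x ^ 3 ∂ν = 0 ∧
        Integrable (fun x : ℝ => x ^ 4) ν ∧ ∫ x, x ^ 4 ∂ν ≤ K) ∧
      (K - 2) * (ν {0}).toReal ≤ K - 3 ∧
      (∀ A : Set ℝ, MeasurableSet A → A ⊆ Set.Ioo (-(1 / (4 * √K))) (1 / (4 * √K)) →
        c * (volume A).toReal ≤ √K ^ 9 * (ν A).toReal) ∧
      ∃ J : Set ℝ, IsOpen J ∧ J.OrdConnected ∧ Set.Ioo (-(1 / (4 * √K))) (1 / (4 * √K)) ⊆ J ∧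
        ν.restrict {0}ᶜ ≪ volume.restrict J ∧ volume.restrict J ≪ ν.restrict {0}ᶜ ∧
        (K = 3 → ν {0} = 0 ∧ ν ≪ volume.restrict J ∧ volume.restrict J ≪ ν) := by
  refine ⟨⟨FD_open, ⟨2 * I, ?_⟩, fun z hz => hz.1, FD_fin⟩, ?_⟩
  · refine ⟨?_, ?_, ?_⟩ <;> simp
  obtain ⟨c, c0, key⟩ := Pool.Agent.Q175.RW.LL.main
  refine ⟨c, c0, ?_⟩
  intro U t f K oU ne hUH fin ht sf eq hqe i4 h4
  have ep : ∀ n, 0 < ev (t n) := fun n => by unfold ev; positivity
  have el : Tendsto (fun n => ev (t n)) atTop atTop :=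
    tendsto_atTop_add_const_left _ _ ((tendsto_pow_atTop two_ne_zero).comp ht)
  have X : Pool.Agent.Q175.RW.LL.LD U (fun z => 1 / z.im ^ 2) (fun n => ev (t n)) f
      Pool.Agent.TH294.RG.unif K :=
    Pool.Agent.Q175.RW.LH.ld oU ne hUH fin ep el sf (fun n z hz => by
      have h1 := eq n z hz
      have h2 : lap (f n) z = dx (dx (f n)) z + dy (dy (f n)) z := rfl
      rw [h2]; linarith) hqe i4 h4
  refine ⟨fun ψ sψ ⟨M, hM⟩ => ⟨Pool.Agent.Q175.RW.FT.weak2 X sψ hM,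
    Pool.Agent.Q175.RW.FT.weak3 X sψ hM⟩, fun ν hν hlim => ?_⟩
  obtain ⟨σ, hσ, hg⟩ := hlim
  obtain ⟨k1, k2, k3, J, j1, j2, j3, j4, j5⟩ := key U (fun z => 1 / z.im ^ 2)
    (fun n => ev (t n)) f Pool.Agent.TH294.RG.unif K inferInstance X ν σ hν hσ hg
  refine ⟨k1, k2, k3, J, j1, j2, j3, j4, j5, fun hK => ?_⟩
  have h0 : (ν {0}).toReal ≤ 0 := by
    rw [hK] at k2
    linarith
  have h1 : ν {0} = 0 := by
    have := le_antisymm h0 ENNReal.toReal_nonneg
    rcases (ENNReal.toReal_eq_zero_iff _).1 this with h | h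
    · exact h
    · exact absurd h (measure_ne_top ν _)
  have h2 : ν.restrict {0}ᶜ = ν := by
    refine Measure.restrict_eq_self_of_ae_mem ?_
    rw [ae_iff]
    have : {x : ℝ | ¬ x ∈ ({0}ᶜ : Set ℝ)} = {0} := by
      ext x; simp
    rw [this]; exact h1
  rw [h2] at j4 j5
  exact ⟨h1, j4, j5⟩

end Pool.Agent.Results.MP_a54f13_nt.FourthMomentLimitLaws
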