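import Pool.Agent.Q175.RW.TM2

/-!
# The total fourth moment controls all local fourth moments (MP_a54f13_nt)

The plane is `ℂ`, with the upper half plane `im z > 0` and `dμ = dx dy / y²`. `dx f z`, `dy f z`
are the partial derivatives `fderiv ℝ f z 1`, `fderiv ℝ f z I`; `TF U φ` says that `φ : ℂ → ℝ` is
smooth with compact support contained in `U`. `RO lam f = lam^{-1/2} y (∂x f - i ∂y f)` is the
normalised frame derivative, `W k = RO^k f` for `k ≥ 0` and `W (-k) = (-1)^k conj (W k)`,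
`L lam g = - lam⁻¹ y² (∂x² + ∂y²) g` is the normalised Laplacian.

`U` is an open set of finite area, for instance the interior of a fundamental domain of the modular
group (it need not be relatively compact). The hypothesis `hqe` is quantum unique ergodicity in its
microlocal form on `U`. The hypothesis `h4` says that the TOTAL fourth moment over `U` is
asymptotically at most the Gaussian one. The conclusions are local and concern all fourth moments
of the local field, the small values and the escape of mass.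

Proof. The lower bound `liminf ∫_V ψ f⁴ ≥ 3 ∫_V ψ` on all open sets `V`, applied to `M ± ψ`, turns
the bound of the total fourth moment into the convergence of all local fourth moments of `f`. Then
the excess inequalities (deviation of every fourth moment of the field from its Gaussian value by
the excess of the local fourth moment of `f`) give the rest.
-/

set_option autoImplicit false
open MeasureTheory Filter Topology Complex
open scoped ContDiff

namespace Pool.Agent.Results.MP_a54f13_nt.TotalFourthMoment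

open Pool.Agent.W745.RW (TF dx dy lap)

/-- the eigenvalue `1/4 + t²` -/
noncomputable def ev (t : ℝ) : ℝ := 1 / 4 + t ^ 2

/-- the operator `f ↦ lam^{-1/2} y (∂x f - i ∂y f)` -/
noncomputable def RO (lam : ℝ) (f : ℂ → ℂ) (z : ℂ) : ℂ :=
  ((z.im / √lam : ℝ) : ℂ) * (dx f z - I * dy f z)

/-- `W k = RO^k f` for `k ≥ 0` and `W k = (-1)^k conj (RO^|k| f)` for `k < 0` -/
noncomputable def W (lam : ℝ) (f : ℂ → ℝ) : ℤ → ℂ → ℂ
  | Int.ofNat k => (RO lam)^[k] (fun w => (f w : ℂ))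
  | Int.negSucc k => fun z => (-1) ^ (k + 1) *
      (starRingEnd ℂ) ((RO lam)^[k + 1] (fun w => (f w : ℂ)) z)

/-- the covariance `E[W a W b]` of the isotropic Gaussian random wave -/
noncomputable def C (a b : ℤ) : ℂ := if a + b = 0 then (-1) ^ a.natAbs else 0

/-- the Gaussian fourth moment `E[W a W b W c W d]` -/
noncomputable def G (a b c d : ℤ) : ℂ := C a b * C c d + C a c * C b d + C a d * C b c

/-- the hyperbolic Laplacian `-y² (∂x² + ∂y²)` divided by `lam` -/
noncomputable def L (lam : ℝ) (g : ℂ → ℝ) (z : ℂ) : ℝ :=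
  -(z.im ^ 2 * (dx (dx g) z + dy (dy g) z)) / lam

/-- the polynomial `F` in the operator `L lam`, applied to `g` -/
noncomputable def opF (F : Polynomial ℝ) (lam : ℝ) (g : ℂ → ℝ) (z : ℂ) : ℝ :=
  F.sum fun i c => c * (L lam)^[i] g z

/-- the value of `∫ (F(L) f²)² dμ / area` for the Gaussian random wave:
`F(0)² + π⁻¹ ∫_0^{2π} F(2 - 2 cos θ)² dθ` -/
noncomputable def gauss (F : Polynomial ℝ) : ℝ :=
  F.eval 0 ^ 2 + 1 / Real.pi * ∫ θ in (0 : ℝ)..(2 * Real.pi), F.eval (2 - 2 * Real.cos θ) ^ 2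

/-- the area `μ(A)` -/
noncomputable def area (A : Set ℂ) : ℝ := ∫ z in A, 1 / z.im ^ 2

/-- **Result.** Let `U` be an open subset of the upper half plane of finite area and let `f n` be
real solutions of `-y²(∂x² + ∂y²) f = (1/4 + t_n²) f` on `U`, `t_n → ∞`, satisfying microlocal
quantum unique ergodicity on `U`. Suppose `limsup ∫_U f⁴ dμ ≤ 3 μ(U)`. Then:

1. `∫_U ψ f⁴ dμ → 3 ∫_U ψ dμ` for every bounded continuous function `ψ` on `U`;
2. for every `δ > 0` there is a compact `K ⊆ U` with `∫_{U \ K} f⁴ dμ ≤ δ` for all large `n`;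
3. `∫ ψ W_a W_b W_c W_d dμ → G(a,b,c,d) ∫ ψ dμ` for all integers `a, b, c, d` and all test
   functions `ψ` on `U`;
4. `∫ ψ (F(L) f²)² dμ → gauss F ∫ ψ dμ` for all polynomials `F` and all test functions `ψ`;
5. for every `δ > 0` there is `s > 0` with `μ {z ∈ U, |f z| ≤ s} ≤ δ` for all large `n`. -/
theorem result (U : Set ℂ) (hU : IsOpen U) (hUH : ∀ z ∈ U, 0 < z.im)
    (hfin : IntegrableOn (fun z : ℂ => 1 / z.im ^ 2) U)
    (t : ℕ → ℝ) (ht : Tendsto t atTop atTop) (f : ℕ → ℂ → ℝ)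
    (hf : ∀ n, ContDiffOn ℝ ∞ (f n) U)
    (heq : ∀ n, ∀ z ∈ U, -(z.im ^ 2 * (dx (dx (f n)) z + dy (dy (f n)) z)) = ev (t n) * f n z)
    (hqe : ∀ φ, TF U φ → ∀ k : ℕ, Tendsto (fun n => ∫ z, ((φ z / z.im ^ 2 : ℝ) : ℂ) *
      ((f n z : ℂ) * (RO (ev (t n)))^[k] (fun w => (f n w : ℂ)) z)) atTop
      (𝓝 (if k = 0 then ((∫ z, φ z / z.im ^ 2 : ℝ) : ℂ) else 0)))
    (h4i : ∀ n, IntegrableOn (fun z => f n z ^ 4 / z.im ^ 2) U)
    (h4 : ∀ ε : ℝ, 0 < ε → ∀ᶠ n in atTop, ∫ z in U, f n z ^ 4 / z.im ^ 2 ≤ 3 * area U + ε) :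
    (∀ ψ : ℂ → ℝ, ContinuousOn ψ U → (∃ M : ℝ, ∀ z ∈ U, |ψ z| ≤ M) →
      Tendsto (fun n => ∫ z in U, ψ z * f n z ^ 4 / z.im ^ 2) atTop
        (𝓝 (3 * ∫ z in U, ψ z / z.im ^ 2))) ∧
    (∀ δ : ℝ, 0 < δ → ∃ K : Set ℂ, IsCompact K ∧ K ⊆ U ∧
      ∀ᶠ n in atTop, ∫ z in U \ K, f n z ^ 4 / z.im ^ 2 ≤ δ) ∧
    (∀ ψ : ℂ → ℝ, TF U ψ → ∀ a b c d : ℤ, Tendsto (fun n => ∫ z, ((ψ z / z.im ^ 2 : ℝ) : ℂ) *
        (W (ev (t n)) (f n) a z * W (ev (t n)) (f n) b z * W (ev (t n)) (f n) c z *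
          W (ev (t n)) (f n) d z)) atTop
      (𝓝 (G a b c d * ((∫ z, ψ z / z.im ^ 2 : ℝ) : ℂ)))) ∧
    (∀ ψ : ℂ → ℝ, TF U ψ → ∀ F : Polynomial ℝ, Tendsto (fun n =>
        ∫ z, ψ z * opF F (ev (t n)) (fun w => f n w ^ 2) z ^ 2 / z.im ^ 2) atTop
      (𝓝 (gauss F * ∫ z, ψ z / z.im ^ 2))) ∧
    (∀ δ : ℝ, 0 < δ → ∃ s : ℝ, 0 < s ∧ ∀ᶠ n in atTop, area {z | z ∈ U ∧ |f n z| ≤ s} ≤ δ) := by
  have ep : ∀ n, 0 < ev (t n) := fun n => by unfold ev; positivity
  have el : Tendsto (fun n => ev (t n)) atTop atTop :=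
    tendsto_atTop_add_const_left _ _ ((tendsto_pow_atTop two_ne_zero).comp ht)
  have X : Pool.Agent.Q175.RW.TM.TD U (fun n => ev (t n)) f := by
    refine ⟨hU, hUH, hfin, ep, el, hf, fun n z hz => ?_, hqe, h4i, h4⟩
    have h1 := heq n z hz
    have h2 : lap (f n) z = dx (dx (f n)) z + dy (dy (f n)) z := rfl
    rw [h2]; linarith
  refine ⟨fun ψ cψ ⟨M, hM⟩ => X.weak cψ hM, fun δ hδ => ?_, fun ψ hψ a b c d => ?_,
    fun ψ hψ F => ?_, fun δ hδ => X.small hδ⟩
  · obtain ⟨χ, h1, h2, h3, h5⟩ := Pool.Agent.Q175.RW.QC.inner_cut hU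
    have l1 := Pool.Agent.Q175.RW.QC.inner_lim hU h1 h2 h3 h5 hfin
    obtain ⟨j, hj⟩ := (l1.eventually (lt_mem_nhds (show (∫ z in U, 1 / z.im ^ 2) - δ / 6 <
      ∫ z in U, 1 / z.im ^ 2 by linarith))).exists
    have cχ : ContinuousOn (fun z => 1 - χ j z) U :=
      continuousOn_const.sub (h1 j).1.continuous.continuousOn
    have bχ : ∀ z ∈ U, |1 - χ j z| ≤ 1 := fun z _ => by
      rw [abs_le]; constructor <;> linarith [h2 j z, h3 j z]
    have w := X.weak cχ bχ
    have iχ : IntegrableOn (fun z => χ j z * (1 / z.im ^ 2)) U := by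
      refine Integrable.bdd_mul (c := 1) hfin
        ((h1 j).1.continuous.aestronglyMeasurable) (ae_of_all _ fun z => ?_)
      rw [Real.norm_eq_abs, abs_of_nonneg (h2 j z)]
      exact h3 j z
    have e1 : ∫ z in U, (1 - χ j z) / z.im ^ 2 =
        (∫ z in U, 1 / z.im ^ 2) - ∫ z in U, χ j z * (1 / z.im ^ 2) := by
      rw [← integral_sub hfin iχ]
      congr 1; funext z; ring
    refine ⟨tsupport (χ j), (h1 j).2.1, (h1 j).2.2, ?_⟩
    have lim : 3 * (∫ z in U, (1 - χ j z) / z.im ^ 2) < δ := by rw [e1]; linarith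
    filter_upwards [w.eventually (gt_mem_nhds lim)] with n hn
    refine le_trans ?_ hn.le
    have sub : U \ tsupport (χ j) ⊆ U := Set.diff_subset
    have mS : MeasurableSet (U \ tsupport (χ j)) :=
      hU.measurableSet.diff (isClosed_tsupport _).measurableSet
    have e2 : ∫ z in U \ tsupport (χ j), f n z ^ 4 / z.im ^ 2 =
        ∫ z in U \ tsupport (χ j), (1 - χ j z) * f n z ^ 4 / z.im ^ 2 := by
      refine setIntegral_congr_fun mS fun z hz => ?_
      show f n z ^ 4 / z.im ^ 2 = (1 - χ j z) * f n z ^ 4 / z.im ^ 2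
      rw [image_eq_zero_of_notMem_tsupport hz.2, sub_zero, one_mul]
    rw [e2]
    refine setIntegral_mono_set (X.iw4 n cχ bχ) ?_ sub.eventuallyLE
    exact ae_of_all _ fun z => div_nonneg (mul_nonneg (by linarith [h3 j z]) (by positivity))
      (sq_nonneg _)
  · have hW : ∀ n k, Pool.Agent.Y265.HY.FW (ev (t n)) (f n) k = W (ev (t n)) (f n) k := by
      intro n k
      cases k with
      | ofNat k => rfl
      | negSucc k => rfl
    have key := X.fourth hψ a b c d
    unfold Pool.Agent.Y265.HY.FM at key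
    simp only [hW] at key
    exact key
  · have key := X.power hψ F
    have k2 := (Complex.continuous_re.tendsto _).comp key
    have e0 : (((F.eval 0 ^ 2 + 1 / Real.pi *
        ∫ θ in (0 : ℝ)..(2 * Real.pi), F.eval (2 - 2 * Real.cos θ) ^ 2 : ℝ) : ℂ) *
        ((∫ z, ψ z / z.im ^ 2 : ℝ) : ℂ)).re = gauss F * ∫ z, ψ z / z.im ^ 2 := by
      rw [← Complex.ofReal_mul, Complex.ofReal_re]; rfl
    rw [e0] at k2
    refine k2.congr fun n => ?_
    have hT : ∀ g, ∀ z ∈ U, L (ev (t n)) g z =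
        Pool.Agent.TH294.RG.sR (fun z => z.im) (1 / √(ev (t n))) g z := by
      intro g z _
      have h2 : (1 / √(ev (t n))) ^ 2 = 1 / ev (t n) := by
        rw [div_pow, Real.sq_sqrt (ep n).le, one_pow]
      simp only [L, Pool.Agent.TH294.RG.sR, h2, lap]
      ring
    have s2 : ContDiffOn ℝ ∞ (fun w => f n w ^ 2) U := (hf n).pow 2
    have sim : ContDiffOn ℝ ∞ (fun z : ℂ => z.im) U := imCLM.contDiff.contDiffOn
    have e1 : ∀ z ∈ U, Pool.Agent.TH294.RG.opP (fun z => z.im) (1 / √(ev (t n))) F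
        (fun w => (f n w : ℂ) * (f n w : ℂ)) z =
        ((opF F (ev (t n)) (fun w => f n w ^ 2) z : ℝ) : ℂ) := by
      intro z hz
      simp only [opF, Pool.Agent.TH294.RG.opP, Polynomial.sum_def]
      push_cast
      refine Finset.sum_congr rfl fun i _ => ?_
      rw [Pool.Agent.TH294.RG.sL1_re hU sim _ s2
        (fun w _ => by push_cast; ring) i z hz, Pool.Agent.TH294.RG.sR_cg hU hT _ i z hz]
    have a1 : ∫ z, ((ψ z / z.im ^ 2 : ℝ) : ℂ) * (Pool.Agent.TH294.RG.opP Complex.im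
        (1 / √(ev (t n))) F (fun w => (f n w : ℂ) * (f n w : ℂ)) z *
        Pool.Agent.TH294.RG.opP Complex.im
        (1 / √(ev (t n))) F (fun w => (f n w : ℂ) * (f n w : ℂ)) z) =
        ((∫ z, ψ z * opF F (ev (t n)) (fun w => f n w ^ 2) z ^ 2 / z.im ^ 2 : ℝ) : ℂ) := by
      rw [← integral_complex_ofReal]
      congr 1; funext z
      by_cases hz : z ∈ U
      · have := e1 z hz
        rw [show (Complex.im : ℂ → ℝ) = fun z => z.im from rfl, this]
        push_cast; ring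
      · have : ψ z = 0 := Pool.Agent.TH294.RS.TF.zero hψ hz
        rw [this]; simp
    simp only [Function.comp_def]
    rw [a1, Complex.ofReal_re]

end Pool.Agent.Results.MP_a54f13_nt.TotalFourthMoment
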